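import Pool.Agent.Lib.MP_29ee6d_gt.Swing

/-!
# Types of crossings; the cost bounds the dealternating number
-/

set_option autoImplicit false

namespace MPdalt

theorem odd_add (p i : ℕ) : ((p + i) % 2 == 1) = xor (i % 2 == 1) (p % 2 == 1) := by
  rcases Nat.mod_two_eq_zero_or_one p with hp | hp <;> rcases Nat.mod_two_eq_zero_or_one i with hi | hi <;>
    simp [Nat.add_mod, hp, hi]

theorem odd_succ (i : ℕ) : ((i + 1) % 2 == 1) = !(i % 2 == 1) := by
  rcases Nat.mod_two_eq_zero_or_one i with hi | hi <;> simp [Nat.add_mod, hi]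

theorem ty_add (p i : ℕ) (o : Bool) : ty (p + i) o = xor (ty i o) (p % 2 == 1) := by
  unfold ty
  rw [odd_add, Bool.xor_assoc]

/-- The number of crossings whose type is not `t`. -/
def wr (t : Bool) : List Ev → ℕ
  | [] => 0
  | .cup _ :: W => wr t W
  | .cap _ :: W => wr t W
  | .cr i o :: W => (if ty i o = t then 0 else 1) + wr t W

theorem wr_append (t : Bool) (W V : List Ev) : wr t (W ++ V) = wr t W + wr t V := by
  induction W with
  | nil => rw [List.nil_append]; simp only [wr, Nat.zero_add]
  | cons e W ih =>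
    cases e with
    | cup i => exact ih
    | cap i => exact ih
    | cr i o =>
      change (if ty i o = t then 0 else 1) + wr t (W ++ V) = (if ty i o = t then 0 else 1) + wr t W + wr t V
      rw [ih, Nat.add_assoc]

theorem wr_shift (t : Bool) (p : ℕ) (W : List Ev) : wr (xor t (p % 2 == 1)) (shW p W) = wr t W := by
  induction W with
  | nil => rfl
  | cons e W ih =>
    cases e with
    | cup i => exact ih
    | cap i => exact ih
    | cr i o =>
      change (if ty (p + i) o = xor t (p % 2 == 1) then 0 else 1) + wr (xor t (p % 2 == 1)) (shW p W) =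
        (if ty i o = t then 0 else 1) + wr t W
      rw [ih, ty_add]
      congr 1
      cases ty i o <;> cases t <;> cases (p % 2 == 1) <;> rfl

theorem wr_RW (ε : Bool) (p a : ℕ) :
    wr (xor ε (p % 2 == 1)) (RW ε p a) = a / 2 ∧ wr (!(xor ε (p % 2 == 1))) (RW ε p a) = (a + 1) / 2 := by
  induction a generalizing p with
  | zero => exact ⟨rfl, rfl⟩
  | succ a ih =>
    obtain ⟨h1, h2⟩ := ih (p + 1)
    rw [odd_succ, Bool.xor_not] at h1
    rw [odd_succ, Bool.xor_not, Bool.not_not] at h2
    have e1 : ty p ε = xor ε (p % 2 == 1) := rfl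
    constructor
    · change (if ty p ε = xor ε (p % 2 == 1) then 0 else 1) + wr (xor ε (p % 2 == 1)) (RW ε (p + 1) a) = _
      rw [h2, if_pos e1, Nat.zero_add]
    · change (if ty p ε = !(xor ε (p % 2 == 1)) then 0 else 1) + wr (!(xor ε (p % 2 == 1))) (RW ε (p + 1) a) = _
      rw [h1, e1, if_neg (by cases (xor ε (p % 2 == 1)) <;> decide)]
      omega

theorem wr_LW (ε : Bool) (p b : ℕ) :
    wr (!(xor ε (p % 2 == 1))) (LW ε p b) = b / 2 ∧ wr (xor ε (p % 2 == 1)) (LW ε p b) = (b + 1) / 2 := by
  induction b generalizing p with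
  | zero => exact ⟨rfl, rfl⟩
  | succ b ih =>
    obtain ⟨h1, h2⟩ := ih (p + 1)
    rw [odd_succ, Bool.xor_not, Bool.not_not] at h1
    rw [odd_succ, Bool.xor_not] at h2
    have e1 : ty p (!ε) = !(xor ε (p % 2 == 1)) := by
      unfold ty
      rw [Bool.not_xor]
    have e2 : ∀ t : Bool, wr t [.cr p (!ε)] = if ty p (!ε) = t then 0 else 1 := fun t => rfl
    constructor
    · change wr _ (LW ε (p + 1) b ++ [.cr p (!ε)]) = _
      rw [wr_append, h2, e2, if_pos e1]
      rfl
    · change wr _ (LW ε (p + 1) b ++ [.cr p (!ε)]) = _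
      rw [wr_append, h1, e2, e1, if_neg (by cases (xor ε (p % 2 == 1)) <;> decide)]
      omega

theorem Word.parity {a b : ℕ} {W : List Ev} (h : Word a W b) : a % 2 = b % 2 := by
  induction h with
  | nil n => rfl
  | cup i _ _ ih => omega
  | cap i _ _ ih => omega
  | cr i o _ _ ih => omega

theorem cost_word {a b k : ℕ} {W : List Ev} {t : Bool} (h : Cost a W b t k) : Word a W b := by
  induction h with
  | nil n t => exact Word.nil n
  | cup n i t h => exact word_cup.2 ⟨h, Word.nil _⟩
  | cap n i t h => exact word_cap.2 ⟨by omega, by rw [Nat.add_sub_cancel]; exact Word.nil _⟩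
  | cr n i o h => exact word_cr.2 ⟨by omega, Word.nil _⟩
  | stack _ _ ih1 ih2 => exact ih1.append ih2
  | place p q _ ih => exact ih.shift p q
  | flip p q _ _ ih => exact ih.shift p q

/-- The cost bounds the number of crossings of the wrong type after an isotopy. -/
theorem cost_main {a b k : ℕ} {W : List Ev} {t : Bool} (h : Cost a W b t k) :
    ∃ W' : List Ev, Iso a b W W' ∧ wr t W' ≤ k := by
  induction h with
  | nil n t => exact ⟨[], Iso.refl _, le_refl _⟩
  | cup n i t h => exact ⟨[.cup i], Iso.refl _, le_refl _⟩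
  | cap n i t h => exact ⟨[.cap i], Iso.refl _, le_refl _⟩
  | cr n i o h =>
    refine ⟨[.cr i o], Iso.refl _, ?_⟩
    change (if ty i o = ty i o then 0 else 1) + 0 ≤ 0
    rw [if_pos rfl]
  | stack hW hV ih1 ih2 =>
    obtain ⟨W', h1, h2⟩ := ih1
    obtain ⟨V', h3, h4⟩ := ih2
    refine ⟨W' ++ V', ?_, ?_⟩
    · exact (Iso.right (cost_word hV) h1).trans (Iso.left (h1.word.1 (cost_word hW)) h3)
    · rw [wr_append]
      omega
  | @place a b k W t p q hW ih =>
    obtain ⟨W', h1, h2⟩ := ih
    exact ⟨shW p W', h1.shift p q, by rw [wr_shift]; exact h2⟩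
  | @flip a b k W t p q hW ha ih =>
    obtain ⟨W', h1, h2⟩ := ih
    obtain ⟨c, rfl⟩ : ∃ c, a = c + 1 := ⟨a - 1, by omega⟩
    have hw := h1.word.1 (cost_word hW)
    obtain ⟨T, hT⟩ : ∃ T, T = !(xor t (p % 2 == 1)) := ⟨_, rfl⟩
    obtain ⟨ε, hε⟩ : ∃ ε, ε = xor T (p % 2 == 1) := ⟨_, rfl⟩
    have e1 : xor ε (p % 2 == 1) = T := by
      rw [hε, Bool.xor_assoc, Bool.xor_self, Bool.xor_false]
    rw [← hT]
    refine ⟨_, (h1.shift p q).trans (iso_swing ε hw p q), ?_⟩
    have w1 := (wr_RW ε p c).1
    have w2 := (wr_LW ε (p + 1) b).1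
    rw [odd_succ, Bool.xor_not, Bool.not_not, e1] at w2
    rw [e1] at w1
    have w3 : wr T (shW (p + 1) W') = wr t W' := by
      rw [← wr_shift t (p + 1) W', odd_succ, Bool.xor_not, ← hT]
    have w4 : wr T [.cup p] = 0 := rfl
    have w5 : wr T [.cap p] = 0 := rfl
    rw [wr_append, wr_append, wr_append, wr_append, w1, w2, w3, w4, w5]
    have hp := hw.parity
    omega

theorem nx_ty {D : List Ev} {τ : Bool} (h : wr τ D = 0) {up : Bool} {t j : ℕ} {b : Bool}
    (hn : Nx D up t j b) : b = xor (!up) (xor τ (j % 2 == 1)) := by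
  have key : ∀ (t i : ℕ) (o : Bool), D[t]? = some (.cr i o) → ty i o = τ := by
    clear hn
    induction D with
    | nil => intro t i o h'; simp at h'
    | cons e D ih =>
      intro t i o h'
      cases t with
      | zero =>
        rw [List.getElem?_cons_zero] at h'
        obtain rfl := Option.some.inj h'
        change (if ty i o = τ then 0 else 1) + wr τ D = 0 at h
        by_contra hc
        rw [if_neg hc] at h
        omega
      | succ t =>
        rw [List.getElem?_cons_succ] at h'
        refine ih ?_ t i o h'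
        cases e with
        | cup i => exact h
        | cap i => exact h
        | cr i o =>
          change (if ty i o = τ then 0 else 1) + wr τ D = 0 at h
          omega
  have e2 : ∀ j : ℕ, ((j + 2) % 2 == 1) = (j % 2 == 1) := fun j => by rw [Nat.add_mod_right]
  induction hn with
  | upL h' =>
    have := key _ _ _ h'
    rw [← this]
    unfold ty
    rw [Bool.xor_assoc, Bool.xor_self]
    simp
  | upR h' =>
    have := key _ _ _ h'
    rw [← this, odd_succ]
    unfold ty
    rw [Bool.xor_not, Bool.xor_assoc, Bool.xor_self]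
    simp
  | downR h' =>
    have := key _ _ _ h'
    rw [← this, odd_succ]
    unfold ty
    rw [Bool.xor_not, Bool.xor_assoc, Bool.xor_self]
    simp
  | downL h' =>
    have := key _ _ _ h'
    rw [← this]
    unfold ty
    rw [Bool.xor_assoc, Bool.xor_self]
    simp
  | upCr _ _ _ _ ih => exact ih
  | downCr _ _ _ _ ih => exact ih
  | upCup1 _ _ _ ih => exact ih
  | upCup2 _ _ _ ih => rw [e2] at ih; exact ih
  | downCup1 _ _ _ ih => exact ih
  | downCup2 _ _ _ ih => rw [e2]; exact ih
  | downCupL _ _ ih => rw [ih, odd_succ]; cases τ <;> simp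
  | downCupR _ _ ih => rw [ih, odd_succ]; cases τ <;> simp
  | downCap1 _ _ _ ih => exact ih
  | downCap2 _ _ _ ih => rw [e2] at ih; exact ih
  | upCap1 _ _ _ ih => exact ih
  | upCap2 _ _ _ ih => rw [e2]; exact ih
  | upCapL _ _ ih => rw [ih, odd_succ]; cases τ <;> simp
  | upCapR _ _ ih => rw [ih, odd_succ]; cases τ <;> simp

theorem alternating_of_wr {D : List Ev} {τ : Bool} (h : wr τ D = 0) : Alternating D := by
  intro t j b b' h1 h2
  rw [nx_ty h h1, nx_ty h h2]
  cases (xor τ (j % 2 == 1)) <;> decide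

theorem exists_chg (τ : Bool) (D : List Ev) : ∃ D', Chg (wr τ D) D D' ∧ wr τ D' = 0 := by
  induction D with
  | nil => exact ⟨[], Chg.nil, rfl⟩
  | cons e D ih =>
    obtain ⟨D', h1, h2⟩ := ih
    cases e with
    | cup i => exact ⟨.cup i :: D', Chg.keep _ h1, h2⟩
    | cap i => exact ⟨.cap i :: D', Chg.keep _ h1, h2⟩
    | cr i o =>
      by_cases hc : ty i o = τ
      · refine ⟨.cr i o :: D', ?_, ?_⟩
        · change Chg ((if ty i o = τ then 0 else 1) + wr τ D) _ _
          rw [if_pos hc, Nat.zero_add]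
          exact Chg.keep _ h1
        · change (if ty i o = τ then 0 else 1) + wr τ D' = 0
          rw [if_pos hc, h2]
      · refine ⟨.cr i (!o) :: D', ?_, ?_⟩
        · change Chg ((if ty i o = τ then 0 else 1) + wr τ D) _ _
          rw [if_neg hc, Nat.add_comm]
          exact Chg.change i o h1
        · have h3 : ty i (!o) = τ := by
            unfold ty at hc ⊢
            revert hc
            cases o <;> cases τ <;> cases (i % 2 == 1) <;> decide
          change (if ty i (!o) = τ then 0 else 1) + wr τ D' = 0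
          rw [if_pos h3, h2]

theorem dalt_le_cost {D : List Ev} {t : Bool} {k : ℕ} (h : Cost 0 D 0 t k) : dalt D ≤ k := by
  obtain ⟨D', h1, h2⟩ := cost_main h
  obtain ⟨D'', h3, h4⟩ := exists_chg t D'
  refine le_trans ?_ h2
  exact Nat.sInf_le ⟨D', D'', h1, h3, alternating_of_wr h4⟩

end MPdalt
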