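import Pool.Agent.Lib.MP_29ee6d_gt.Comp

/-!
# The exponents of the Kauffman bracket
-/

set_option autoImplicit false

namespace MPdalt

open LaurentPolynomial

/-- All exponents are between `lo` and `hi`. -/
def Bd (lo hi : ℤ) (p : LaurentPolynomial ℤ) : Prop := ∀ e, p.coeff e ≠ 0 → lo ≤ e ∧ e ≤ hi

theorem Bd.mono {lo hi lo' hi' : ℤ} {p : LaurentPolynomial ℤ} (h : Bd lo hi p) (h1 : lo' ≤ lo) (h2 : hi ≤ hi') :
    Bd lo' hi' p := fun e he => ⟨h1.trans (h e he).1, (h e he).2.trans h2⟩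

theorem bd_T (m : ℤ) : Bd m m (T m) := by
  intro e he
  rw [T_apply] at he
  by_cases h : m = e
  · subst h
    exact ⟨le_rfl, le_rfl⟩
  · rw [if_neg h] at he
    exact absurd rfl he

theorem bd_sum {ι : Type*} (s : Finset ι) (p : ι → LaurentPolynomial ℤ) {lo hi : ℤ} (h : ∀ i ∈ s, Bd lo hi (p i)) :
    Bd lo hi (∑ i ∈ s, p i) := by
  intro e he
  rw [AddMonoidAlgebra.coeff_sum, Finsupp.finsetSum_apply] at he
  obtain ⟨i, hi, hne⟩ := Finset.exists_ne_zero_of_sum_ne_zero he
  exact h i hi e hne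

theorem bd_neg {lo hi : ℤ} {p : LaurentPolynomial ℤ} (h : Bd lo hi p) : Bd lo hi (-p) := by
  intro e he
  refine h e fun h0 => he ?_
  have h1 : (-p).coeff e = -(p.coeff e) := rfl
  rw [h1, h0, neg_zero]

theorem bd_add {lo hi : ℤ} {p q : LaurentPolynomial ℤ} (hp : Bd lo hi p) (hq : Bd lo hi q) : Bd lo hi (p + q) := by
  intro e he
  rw [AddMonoidAlgebra.coeff_add, Finsupp.add_apply] at he
  by_cases h : p.coeff e = 0
  · rw [h, zero_add] at he
    exact hq e he
  · exact hp e h

theorem bd_mul {lo hi lo' hi' : ℤ} {p q : LaurentPolynomial ℤ} (hp : Bd lo hi p) (hq : Bd lo' hi' q) :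
    Bd (lo + lo') (hi + hi') (p * q) := by
  classical
  intro e he
  have h1 : e ∈ (p * q).coeff.support := Finsupp.mem_support_iff.2 he
  have h2 := AddMonoidAlgebra.support_coeff_mul_subset p q h1
  obtain ⟨a, ha, b, hb, hab⟩ := Finset.mem_add.1 h2
  obtain ⟨h3, h4⟩ := hp a (Finsupp.mem_support_iff.1 ha)
  obtain ⟨h5, h6⟩ := hq b (Finsupp.mem_support_iff.1 hb)
  omega

theorem bd_pow {lo hi : ℤ} {p : LaurentPolynomial ℤ} (hp : Bd lo hi p) (n : ℕ) : Bd (n * lo) (n * hi) (p ^ n) := by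
  induction n with
  | zero =>
    rw [pow_zero, ← T_zero]
    exact (bd_T 0).mono (by simp) (by simp)
  | succ n ih =>
    rw [pow_succ]
    exact (bd_mul ih hp).mono (by push_cast; linarith) (by push_cast; linarith)

theorem bd_loop : Bd (-2) 2 (-T 2 - T (-2) : LaurentPolynomial ℤ) := by
  rw [sub_eq_add_neg]
  exact bd_add (bd_neg ((bd_T 2).mono (by norm_num) le_rfl)) (bd_neg ((bd_T (-2)).mono le_rfl (by norm_num)))

/-- The exponents of the bracket of a diagram with crossings `c`, `s` circles of the `A`-state and `s'` circles of the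
`B`-state are between `-c - 2 s' + 2` and `c + 2 s - 2`. -/
theorem bracket_bd {D : List Ev} (hD : Word 0 D 0) (hne : D ≠ []) :
    Bd (-(ncr D : ℤ) - 2 * circles D ∅ + 2) (ncr D + 2 * circles D (crs D) - 2) (bracket D) := by
  classical
  have hA := circles_pos hD hne (crs D)
  have hB := circles_pos hD hne ∅
  unfold bracket
  refine bd_sum _ _ fun S hS => ?_
  have hSc := Finset.mem_powerset.1 hS
  have h1 := circles_le_A hD hSc
  have h2 := circles_le_B hD hSc
  have h3 := circles_pos hD hne S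
  have h4 : (crs D \ S).card + S.card = ncr D := by
    rw [← card_crs]
    exact Finset.card_sdiff_add_card_eq_card hSc
  refine (bd_mul (bd_T _) (bd_pow bd_loop _)).mono ?_ ?_
  · omega
  · omega

end MPdalt
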