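import Pool.Agent.Lib.MP_29ee6d_gt.Defs

/-!
# The number of circles of the states

If one smoothing is changed the number of circles changes by at most one.
-/

set_option autoImplicit false

namespace MPdalt

/-! ### Quotients by relations which differ by one pair -/

theorem card_quot_le {α : Type*} [Finite α] (r r' : α → α → Prop) (a b : α)
    (h : ∀ x y, r' x y → Quot.mk (fun x y => r x y ∨ (x = a ∧ y = b)) x = Quot.mk _ y) :
    Nat.card (Quot r) ≤ Nat.card (Quot r') + 1 := by
  classical
  set s : α → α → Prop := fun x y => r x y ∨ (x = a ∧ y = b) with hs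
  -- the map to the quotient by `s`
  let ψ : Quot r → Quot s := Quot.map id fun x y hxy => Or.inl hxy
  let θ : Quot s → Quot r := Quot.lift (fun x => if Quot.mk r x = Quot.mk r b then Quot.mk r a else Quot.mk r x)
    (by
      rintro x y (hxy | ⟨rfl, rfl⟩)
      · show (if Quot.mk r x = Quot.mk r b then Quot.mk r a else Quot.mk r x) =
          if Quot.mk r y = Quot.mk r b then Quot.mk r a else Quot.mk r y
        rw [Quot.sound hxy]
      · show (if Quot.mk r x = Quot.mk r y then Quot.mk r x else Quot.mk r x) =
          if Quot.mk r y = Quot.mk r y then Quot.mk r x else Quot.mk r y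
        rw [if_pos rfl]
        split_ifs <;> rfl)
  have hθ : ∀ q : Quot r, q ≠ Quot.mk r b → θ (ψ q) = q := by
    intro q hq
    induction q using Quot.ind with
    | mk x =>
      show (if Quot.mk r x = Quot.mk r b then Quot.mk r a else Quot.mk r x) = Quot.mk r x
      rw [if_neg hq]
  let φ : Quot r → Option (Quot s) := fun q => if q = Quot.mk r b then none else some (ψ q)
  have hφ : Function.Injective φ := by
    intro q q' hqq
    by_cases h1 : q = Quot.mk r b
    · by_cases h2 : q' = Quot.mk r b
      · rw [h1, h2]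
      · simp only [φ] at hqq
        rw [if_pos h1, if_neg h2] at hqq
        cases hqq
    · by_cases h2 : q' = Quot.mk r b
      · simp only [φ] at hqq
        rw [if_neg h1, if_pos h2] at hqq
        cases hqq
      · simp only [φ] at hqq
        rw [if_neg h1, if_neg h2] at hqq
        have h3 := Option.some.inj hqq
        rw [← hθ q h1, ← hθ q' h2, h3]
  have h1 : Nat.card (Quot r) ≤ Nat.card (Option (Quot s)) := Nat.card_le_card_of_injective φ hφ
  have h2 : Nat.card (Option (Quot s)) = Nat.card (Quot s) + 1 := Finite.card_option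
  have h3 : Nat.card (Quot s) ≤ Nat.card (Quot r') := by
    refine Nat.card_le_card_of_surjective (Quot.lift (fun x => Quot.mk s x) h) ?_
    intro q
    induction q using Quot.ind with
    | mk x => exact ⟨Quot.mk r' x, rfl⟩
  omega

/-! ### The points -/

/-- The points of the pictures. -/
abbrev Pt (D : List Ev) : Type := {P : ℕ × ℕ // P.1 ≤ D.length ∧ P.2 < wd D P.1}

theorem finite_pt (D : List Ev) : Finite (Pt D) := by
  obtain ⟨m, hm⟩ : ∃ m, ∀ t ≤ D.length, wd D t ≤ m := by
    refine ⟨(Finset.range (D.length + 1)).sup (wd D), fun t ht => ?_⟩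
    exact Finset.le_sup (f := wd D) (Finset.mem_range.2 (Nat.lt_succ_of_le ht))
  refine Finite.of_injective (β := Fin (D.length + 1) × Fin (m + 1))
    (fun P => (⟨P.1.1, Nat.lt_succ_of_le P.2.1⟩, ⟨P.1.2, Nat.lt_succ_of_le ((P.2.2.le).trans (hm _ P.2.1))⟩)) ?_
  intro P Q h
  have h1 : P.1.1 = Q.1.1 := congrArg (fun x => x.1.1) h
  have h2 : P.1.2 = Q.1.2 := congrArg (fun x => x.2.1) h
  exact Subtype.ext (Prod.ext h1 h2)

theorem wd_succ (D : List Ev) (t : ℕ) (e : Ev) (h : D[t]? = some e) : wd D (t + 1) = wd1 (wd D t) e := by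
  unfold wd
  rw [List.take_add_one, h, Option.toList_some, List.foldl_append]
  rfl

theorem cr_lt_wd {n n' : ℕ} {D : List Ev} (hD : Word n D n') (t i : ℕ) (o : Bool) (h : D[t]? = some (.cr i o)) :
    i + 2 ≤ (D.take t).foldl wd1 n := by
  induction hD generalizing t with
  | nil n => simp at h
  | @cup n n' W j hj hW ih =>
    cases t with
    | zero => simp at h
    | succ t =>
      rw [List.getElem?_cons_succ] at h
      exact ih t h
  | @cap n n' W j hj hW ih =>
    cases t with
    | zero => simp at h
    | succ t =>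
      rw [List.getElem?_cons_succ] at h
      exact ih t h
  | @cr n n' W j o' hj hW ih =>
    cases t with
    | zero =>
      rw [List.getElem?_cons_zero] at h
      have h1 : j = i := by
        have := Option.some.inj h
        injection this
      subst h1
      show j + 2 ≤ n + 2
      omega
    | succ t =>
      rw [List.getElem?_cons_succ] at h
      exact ih t h

/-! ### Changing one smoothing -/

/-- The relation of being neighbours on the points. -/
abbrev rl (D : List Ev) (S : Finset ℕ) : Pt D → Pt D → Prop := fun P Q => SAdj D S P.1 Q.1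

theorem circles_step {D : List Ev} (hD : Word 0 D 0) {S S' : Finset ℕ} {t : ℕ} (ht : t ∈ crs D)
    (h : ∀ u, u ≠ t → (u ∈ S ↔ u ∈ S')) : circles D S ≤ circles D S' + 1 := by
  classical
  unfold crs at ht
  rw [Finset.mem_filter, Finset.mem_range] at ht
  obtain ⟨htl, i, o, hio⟩ := ht
  have hw : i + 2 ≤ wd D t := cr_lt_wd hD t i o hio
  have hw' : wd D (t + 1) = wd D t := wd_succ D t _ hio
  have := finite_pt D
  -- the four points
  let a : Pt D := ⟨(t, i), htl.le, by show i < wd D t; omega⟩
  let b : Pt D := ⟨(t, i + 1), htl.le, by show i + 1 < wd D t; omega⟩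
  let c : Pt D := ⟨(t + 1, i), htl, by show i < wd D (t + 1); omega⟩
  let d : Pt D := ⟨(t + 1, i + 1), htl, by show i + 1 < wd D (t + 1); omega⟩
  by_cases hs : (t ∈ S ↔ o = true)
  · -- vertical in `S`: add the edge `a b`
    refine card_quot_le (rl D S) (rl D S') a b ?_
    have hac : Quot.mk (fun x y => rl D S x y ∨ (x = a ∧ y = b)) a = Quot.mk _ c :=
      Quot.sound (Or.inl (SAdj.crV hio (Or.inl rfl) hs))
    have hbd : Quot.mk (fun x y => rl D S x y ∨ (x = a ∧ y = b)) b = Quot.mk _ d :=
      Quot.sound (Or.inl (SAdj.crV hio (Or.inr rfl) hs))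
    have hab : Quot.mk (fun x y => rl D S x y ∨ (x = a ∧ y = b)) a = Quot.mk _ b := Quot.sound (Or.inr ⟨rfl, rfl⟩)
    rintro ⟨x, hx⟩ ⟨y, hy⟩ hxy
    have hxy' : SAdj D S' x y := hxy
    cases hxy' with
    | cup1 h0 h1 => exact Quot.sound (Or.inl (SAdj.cup1 h0 h1))
    | cup2 h0 h1 => exact Quot.sound (Or.inl (SAdj.cup2 h0 h1))
    | cup3 h0 => exact Quot.sound (Or.inl (SAdj.cup3 h0))
    | cap1 h0 h1 => exact Quot.sound (Or.inl (SAdj.cap1 h0 h1))
    | cap2 h0 h1 => exact Quot.sound (Or.inl (SAdj.cap2 h0 h1))
    | cap3 h0 => exact Quot.sound (Or.inl (SAdj.cap3 h0))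
    | cr0 h0 h1 h2 => exact Quot.sound (Or.inl (SAdj.cr0 h0 h1 h2))
    | @crV t' i' j' o' h0 h1 hs' =>
      by_cases htt : t' = t
      · subst htt
        have h3 : Ev.cr i' o' = Ev.cr i o := Option.some.inj (h0.symm.trans hio)
        injection h3 with h4 h5
        subst h4 h5
        rcases h1 with rfl | rfl
        · exact hac
        · exact hbd
      · exact Quot.sound (Or.inl (SAdj.crV h0 h1 ((h t' htt).trans hs')))
    | @crH t' i' t'' o' h0 h1 hs' =>
      by_cases htt : t' = t
      · subst htt
        have h3 : Ev.cr i' o' = Ev.cr i o := Option.some.inj (h0.symm.trans hio)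
        injection h3 with h4 h5
        subst h4 h5
        rcases h1 with rfl | rfl
        · exact hab
        · exact hac.symm.trans (hab.trans hbd)
      · exact Quot.sound (Or.inl (SAdj.crH h0 h1 fun h6 => hs' ((h t' htt).symm.trans h6)))
  · -- horizontal in `S`: add the edge `a c`
    refine card_quot_le (rl D S) (rl D S') a c ?_
    have hab : Quot.mk (fun x y => rl D S x y ∨ (x = a ∧ y = c)) a = Quot.mk _ b :=
      Quot.sound (Or.inl (SAdj.crH hio (Or.inl rfl) hs))
    have hcd : Quot.mk (fun x y => rl D S x y ∨ (x = a ∧ y = c)) c = Quot.mk _ d :=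
      Quot.sound (Or.inl (SAdj.crH hio (Or.inr rfl) hs))
    have hac : Quot.mk (fun x y => rl D S x y ∨ (x = a ∧ y = c)) a = Quot.mk _ c := Quot.sound (Or.inr ⟨rfl, rfl⟩)
    rintro ⟨x, hx⟩ ⟨y, hy⟩ hxy
    have hxy' : SAdj D S' x y := hxy
    cases hxy' with
    | cup1 h0 h1 => exact Quot.sound (Or.inl (SAdj.cup1 h0 h1))
    | cup2 h0 h1 => exact Quot.sound (Or.inl (SAdj.cup2 h0 h1))
    | cup3 h0 => exact Quot.sound (Or.inl (SAdj.cup3 h0))
    | cap1 h0 h1 => exact Quot.sound (Or.inl (SAdj.cap1 h0 h1))
    | cap2 h0 h1 => exact Quot.sound (Or.inl (SAdj.cap2 h0 h1))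
    | cap3 h0 => exact Quot.sound (Or.inl (SAdj.cap3 h0))
    | cr0 h0 h1 h2 => exact Quot.sound (Or.inl (SAdj.cr0 h0 h1 h2))
    | @crV t' i' j' o' h0 h1 hs' =>
      by_cases htt : t' = t
      · subst htt
        have h3 : Ev.cr i' o' = Ev.cr i o := Option.some.inj (h0.symm.trans hio)
        injection h3 with h4 h5
        subst h4 h5
        rcases h1 with rfl | rfl
        · exact hac
        · exact hab.symm.trans (hac.trans hcd)
      · exact Quot.sound (Or.inl (SAdj.crV h0 h1 ((h t' htt).trans hs')))
    | @crH t' i' t'' o' h0 h1 hs' =>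
      by_cases htt : t' = t
      · subst htt
        have h3 : Ev.cr i' o' = Ev.cr i o := Option.some.inj (h0.symm.trans hio)
        injection h3 with h4 h5
        subst h4 h5
        rcases h1 with rfl | rfl
        · exact hab
        · exact hcd
      · exact Quot.sound (Or.inl (SAdj.crH h0 h1 fun h6 => hs' ((h t' htt).symm.trans h6)))

theorem circles_union {D : List Ev} (hD : Word 0 D 0) (S U : Finset ℕ) (hU : U ⊆ crs D) :
    circles D S ≤ circles D (S ∪ U) + U.card ∧ circles D (S ∪ U) ≤ circles D S + U.card := by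
  classical
  induction U using Finset.induction_on with
  | empty => simp
  | insert t U ht ih =>
    obtain ⟨h1, h2⟩ := ih fun u hu => hU (Finset.mem_insert_of_mem hu)
    have htc : t ∈ crs D := hU (Finset.mem_insert_self t U)
    have hmem : ∀ u, u ≠ t → (u ∈ S ∪ U ↔ u ∈ S ∪ insert t U) := by
      intro u hu
      rw [Finset.mem_union, Finset.mem_union, Finset.mem_insert]
      constructor
      · rintro (h | h)
        · exact Or.inl h
        · exact Or.inr (Or.inr h)
      · rintro (h | h | h)
        · exact Or.inl h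
        · exact absurd h hu
        · exact Or.inr h
    have h3 := circles_step hD htc hmem
    have h4 := circles_step hD htc fun u hu => (hmem u hu).symm
    rw [Finset.card_insert_of_notMem ht]
    constructor <;> omega

theorem circles_le_A {D : List Ev} (hD : Word 0 D 0) {S : Finset ℕ} (hS : S ⊆ crs D) :
    circles D S ≤ circles D (crs D) + (crs D \ S).card := by
  classical
  have h := (circles_union hD S (crs D \ S) Finset.sdiff_subset).1
  rwa [Finset.union_sdiff_of_subset hS] at h

theorem circles_le_B {D : List Ev} (hD : Word 0 D 0) {S : Finset ℕ} (hS : S ⊆ crs D) :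
    circles D S ≤ circles D ∅ + S.card := by
  have h := (circles_union hD ∅ S hS).2
  rwa [Finset.empty_union] at h

theorem circles_pos {D : List Ev} (hD : Word 0 D 0) (hne : D ≠ []) (S : Finset ℕ) : 1 ≤ circles D S := by
  have hf := finite_pt D
  have hp : 0 < wd D 1 := by
    cases hD with
    | nil => exact absurd rfl hne
    | @cup _ _ W i h hW =>
      show 0 < ((Ev.cup i :: W).take 1).foldl wd1 0
      rw [List.take_succ_cons, List.foldl_cons, List.take_zero, List.foldl_nil]
      exact Nat.succ_pos _
  have hl : 1 ≤ D.length := List.length_pos_iff.2 hne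
  have : Nonempty (Quot (rl D S)) := ⟨Quot.mk _ ⟨(1, 0), hl, hp⟩⟩
  exact Nat.card_pos

/-- The number of crossings is the number of the pieces which are crossings. -/
theorem card_crs (D : List Ev) : (crs D).card = ncr D := by
  classical
  have key : ∀ D : List Ev, ((Finset.range D.length).filter fun t => ∃ i o, D[t]? = some (.cr i o)).card = ncr D := by
    intro D
    induction D with
    | nil => simp [ncr]
    | cons e D ih =>
      rw [List.length_cons, Finset.range_eq_Ico, ← Finset.insert_Ico_add_one_left_eq_Ico (Nat.succ_pos _), Finset.filter_insert]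
      have h1 : ((Finset.Ico (0 + 1) (D.length + 1)).filter fun t => ∃ i o, (e :: D)[t]? = some (.cr i o)) =
          ((Finset.range D.length).filter fun t => ∃ i o, D[t]? = some (.cr i o)).map (addRightEmbedding 1) := by
        ext t
        simp only [Finset.mem_filter, Finset.mem_Ico, Finset.mem_map, Finset.mem_range, addRightEmbedding_apply]
        constructor
        · rintro ⟨⟨h1, h2⟩, i, o, h3⟩
          obtain ⟨t, rfl⟩ : ∃ t', t = t' + 1 := ⟨t - 1, by omega⟩
          exact ⟨t, ⟨by omega, i, o, by rwa [List.getElem?_cons_succ] at h3⟩, rfl⟩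
        · rintro ⟨t', ⟨h1, i, o, h3⟩, rfl⟩
          exact ⟨⟨by omega, by omega⟩, i, o, by rwa [List.getElem?_cons_succ]⟩
      have h0 : (0 : ℕ) ∉ ((Finset.Ico (0 + 1) (D.length + 1)).filter fun t => ∃ i o, (e :: D)[t]? = some (.cr i o)) := by
        simp
      cases e with
      | cup i =>
        rw [if_neg (by rintro ⟨i', o', h⟩; simp at h), h1, Finset.card_map, ih]
        rfl
      | cap i =>
        rw [if_neg (by rintro ⟨i', o', h⟩; simp at h), h1, Finset.card_map, ih]
        rfl
      | cr i o =>
        rw [if_pos ⟨i, o, by simp⟩, Finset.card_insert_of_notMem h0, h1, Finset.card_map, ih]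
        rfl
  unfold crs
  exact key D

end MPdalt
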