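import Mathlib

/-!
# Link diagrams in Morse position

A link diagram in general position with respect to the height function is a word in minima, maxima
and crossings, read from the bottom to the top. Unoriented links in the 3-space up to isotopy are the
closed words up to the moves `Mv` (Freyd and Yetter, Turaev).
-/

set_option autoImplicit false

namespace MPdalt

/-- An elementary piece: a minimum creating strands number `i, i + 1` (counted from the left, from
`0`), a maximum closing the strands `i, i + 1`, a crossing of the strands `i, i + 1`, where `o` says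
that the strand which goes from the lower left to the upper right is the upper one. -/
inductive Ev
  | cup (i : ℕ)
  | cap (i : ℕ)
  | cr (i : ℕ) (o : Bool)

/-- The piece moved by `k` strands to the right. -/
def Ev.sh (k : ℕ) : Ev → Ev
  | .cup i => .cup (k + i)
  | .cap i => .cap (k + i)
  | .cr i o => .cr (k + i) o

/-- The number of strands which enter the piece from below. -/
def Ev.inn : Ev → ℕ
  | .cup _ => 0
  | .cap _ => 2
  | .cr _ _ => 2

/-- The number of strands which leave the piece above. -/
def Ev.out : Ev → ℕ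
  | .cup _ => 2
  | .cap _ => 0
  | .cr _ _ => 2

/-- The number of the first strand of the piece. -/
def Ev.pos : Ev → ℕ
  | .cup i => i
  | .cap i => i
  | .cr i _ => i

/-- `W` is a tangle word with `n` strands below and `n'` strands above. -/
inductive Word : ℕ → List Ev → ℕ → Prop
  | nil (n : ℕ) : Word n [] n
  | cup {n n' : ℕ} {W : List Ev} (i : ℕ) (h : i ≤ n) (hW : Word (n + 2) W n') : Word n (.cup i :: W) n'
  | cap {n n' : ℕ} {W : List Ev} (i : ℕ) (h : i ≤ n) (hW : Word n W n') : Word (n + 2) (.cap i :: W) n'
  | cr {n n' : ℕ} {W : List Ev} (i : ℕ) (o : Bool) (h : i ≤ n) (hW : Word (n + 2) W n') :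
      Word (n + 2) (.cr i o :: W) n'

/-- The moves: distant pieces commute, a zigzag is removed, a strand which crosses the leg of a
minimum or maximum is slid over its end, and the three Reidemeister moves. -/
inductive Mv : List Ev → List Ev → Prop
  | far (e f : Ev) : Mv [e, f.sh (e.pos + e.out)] [f.sh (e.pos + e.inn), e]
  | zig (i : ℕ) : Mv [.cup (i + 1), .cap i] []
  | zag (i : ℕ) : Mv [.cup i, .cap (i + 1)] []
  | cupSlide (i : ℕ) (o : Bool) : Mv [.cup i, .cr (i + 1) o] [.cup (i + 1), .cr i (!o)]
  | capSlide (i : ℕ) (o : Bool) : Mv [.cr (i + 1) o, .cap i] [.cr i (!o), .cap (i + 1)]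
  | r1cup (i : ℕ) (o : Bool) : Mv [.cup i, .cr i o] [.cup i]
  | r1cap (i : ℕ) (o : Bool) : Mv [.cr i o, .cap i] [.cap i]
  | r2 (i : ℕ) (o : Bool) : Mv [.cr i o, .cr i (!o)] []
  | r3 (i : ℕ) (a b c : Bool) (h : a = b ∨ b = c) :
      Mv [.cr i a, .cr (i + 1) b, .cr i c] [.cr (i + 1) c, .cr i b, .cr (i + 1) a]

/-- One move inside a tangle word with `n` strands below and `n'` strands above. -/
def Step (n n' : ℕ) (D D' : List Ev) : Prop :=
  Word n D n' ∧ Word n D' n' ∧ ∃ u v x y : List Ev, D = u ++ x ++ v ∧ D' = u ++ y ++ v ∧ Mv x y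

/-- Isotopy of tangle words with `n` strands below and `n'` strands above; `Iso 0 0` is the isotopy
of link diagrams. -/
def Iso (n n' : ℕ) : List Ev → List Ev → Prop := Relation.EqvGen (Step n n')

/-- Where the next crossing is met: `Nx D up t j b` says that, starting from the strand number `j`
at the height after `t` pieces of `D` and going upwards (`up = true`) or downwards along the link,
the next crossing which is met is passed on the upper (`b = true`) or lower strand. -/
inductive Nx (D : List Ev) : Bool → ℕ → ℕ → Bool → Prop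
  | upL {t i : ℕ} {o : Bool} (h : D[t]? = some (.cr i o)) : Nx D true t i o
  | upR {t i : ℕ} {o : Bool} (h : D[t]? = some (.cr i o)) : Nx D true t (i + 1) (!o)
  | downR {t i : ℕ} {o : Bool} (h : D[t]? = some (.cr i o)) : Nx D false (t + 1) (i + 1) o
  | downL {t i : ℕ} {o : Bool} (h : D[t]? = some (.cr i o)) : Nx D false (t + 1) i (!o)
  | upCr {t i j : ℕ} {o b : Bool} (h : D[t]? = some (.cr i o)) (h1 : j ≠ i) (h2 : j ≠ i + 1)
      (hn : Nx D true (t + 1) j b) : Nx D true t j b
  | downCr {t i j : ℕ} {o b : Bool} (h : D[t]? = some (.cr i o)) (h1 : j ≠ i) (h2 : j ≠ i + 1)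
      (hn : Nx D false t j b) : Nx D false (t + 1) j b
  | upCup1 {t i j : ℕ} {b : Bool} (h : D[t]? = some (.cup i)) (h1 : j < i)
      (hn : Nx D true (t + 1) j b) : Nx D true t j b
  | upCup2 {t i j : ℕ} {b : Bool} (h : D[t]? = some (.cup i)) (h1 : i ≤ j)
      (hn : Nx D true (t + 1) (j + 2) b) : Nx D true t j b
  | downCup1 {t i j : ℕ} {b : Bool} (h : D[t]? = some (.cup i)) (h1 : j < i)
      (hn : Nx D false t j b) : Nx D false (t + 1) j b
  | downCup2 {t i j : ℕ} {b : Bool} (h : D[t]? = some (.cup i)) (h1 : i ≤ j)
      (hn : Nx D false t j b) : Nx D false (t + 1) (j + 2) b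
  | downCupL {t i : ℕ} {b : Bool} (h : D[t]? = some (.cup i))
      (hn : Nx D true (t + 1) (i + 1) b) : Nx D false (t + 1) i b
  | downCupR {t i : ℕ} {b : Bool} (h : D[t]? = some (.cup i))
      (hn : Nx D true (t + 1) i b) : Nx D false (t + 1) (i + 1) b
  | downCap1 {t i j : ℕ} {b : Bool} (h : D[t]? = some (.cap i)) (h1 : j < i)
      (hn : Nx D false t j b) : Nx D false (t + 1) j b
  | downCap2 {t i j : ℕ} {b : Bool} (h : D[t]? = some (.cap i)) (h1 : i ≤ j)
      (hn : Nx D false t (j + 2) b) : Nx D false (t + 1) j b
  | upCap1 {t i j : ℕ} {b : Bool} (h : D[t]? = some (.cap i)) (h1 : j < i)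
      (hn : Nx D true (t + 1) j b) : Nx D true t j b
  | upCap2 {t i j : ℕ} {b : Bool} (h : D[t]? = some (.cap i)) (h1 : i ≤ j)
      (hn : Nx D true (t + 1) j b) : Nx D true t (j + 2) b
  | upCapL {t i : ℕ} {b : Bool} (h : D[t]? = some (.cap i))
      (hn : Nx D false t (i + 1) b) : Nx D true t i b
  | upCapR {t i : ℕ} {b : Bool} (h : D[t]? = some (.cap i))
      (hn : Nx D false t i b) : Nx D true t (i + 1) b

/-- The diagram is alternating: of the two ends of every edge (the part of the link between two
consecutive crossings) one is on the upper and one on the lower strand. -/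
def Alternating (D : List Ev) : Prop :=
  ∀ (t j : ℕ) (b b' : Bool), Nx D true t j b → Nx D false t j b' → b ≠ b'

/-- `Chg k D D'`: the diagram `D'` arises from `D` by changing `k` crossings. -/
inductive Chg : ℕ → List Ev → List Ev → Prop
  | nil : Chg 0 [] []
  | keep {k : ℕ} {D D' : List Ev} (e : Ev) (h : Chg k D D') : Chg k (e :: D) (e :: D')
  | change {k : ℕ} {D D' : List Ev} (i : ℕ) (o : Bool) (h : Chg k D D') :
      Chg (k + 1) (.cr i o :: D) (.cr i (!o) :: D')

/-- The dealternating number of the link with the diagram `D`: the least number of crossings which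
have to be changed in a diagram of the link in order to get an alternating diagram. -/
noncomputable def dalt (D : List Ev) : ℕ :=
  sInf {k | ∃ D' D'' : List Ev, Iso 0 0 D D' ∧ Chg k D' D'' ∧ Alternating D''}

/-- The type of the crossing `cr i o`. (The regions of a diagram are coloured by the parity of the
number of strands to the left; a connected diagram is alternating if and only if all its crossings
have the same type.) -/
def ty (i : ℕ) (o : Bool) : Bool := xor o (i % 2 == 1)

/-- The word moved by `p` strands to the right. -/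
def shW (p : ℕ) (W : List Ev) : List Ev := W.map (Ev.sh p)

/-- `Cost n W n' t k`: the cost `k` of giving all crossings of the tangle word `W` the type `t`.
Words all of whose crossings have the type `t` cost nothing, costs of stacked words add up, a box (a
word `W` with `a` strands below and `b` strands above, placed with `p` strands to its left and `q`
strands to its right) costs the same if it is left as it is; it costs `(a + b) / 2 - 1` more if all its
crossings are flipped. -/
inductive Cost : ℕ → List Ev → ℕ → Bool → ℕ → Prop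
  | nil (n : ℕ) (t : Bool) : Cost n [] n t 0
  | cup (n i : ℕ) (t : Bool) (h : i ≤ n) : Cost n [.cup i] (n + 2) t 0
  | cap (n i : ℕ) (t : Bool) (h : i ≤ n) : Cost (n + 2) [.cap i] n t 0
  | cr (n i : ℕ) (o : Bool) (h : i ≤ n) : Cost (n + 2) [.cr i o] (n + 2) (ty i o) 0
  | stack {a b c k l : ℕ} {W V : List Ev} {t : Bool} (hW : Cost a W b t k) (hV : Cost b V c t l) :
      Cost a (W ++ V) c t (k + l)
  | place {a b k : ℕ} {W : List Ev} {t : Bool} (p q : ℕ) (hW : Cost a W b t k) :
      Cost (p + a + q) (shW p W) (p + b + q) (xor t (p % 2 == 1)) k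
  | flip {a b k : ℕ} {W : List Ev} {t : Bool} (p q : ℕ) (hW : Cost a W b t k) (ha : 1 ≤ a) :
      Cost (p + a + q) (shW p W) (p + b + q) (!(xor t (p % 2 == 1))) (k + ((a + b) / 2 - 1))

/-- The number of crossings. -/
def ncr : List Ev → ℕ
  | [] => 0
  | .cup _ :: D => ncr D
  | .cap _ :: D => ncr D
  | .cr _ _ :: D => ncr D + 1

/-- The number of strands above a piece if there are `n` strands below. -/
def wd1 (n : ℕ) : Ev → ℕ
  | .cup _ => n + 2
  | .cap _ => n - 2
  | .cr _ _ => n

/-- The number of strands of the closed word `D` after its first `t` pieces. -/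
def wd (D : List Ev) (t : ℕ) : ℕ := (D.take t).foldl wd1 0

/-- `SAdj D S P Q`: in the picture obtained from the closed word `D` by smoothing all crossings, the
crossings number `t ∈ S` (counted by the pieces of the word) by the `A`-smoothing, the others by the
`B`-smoothing, the point `Q` is the neighbour of the point `P`; points are pairs (height, strand). -/
inductive SAdj (D : List Ev) (S : Finset ℕ) : ℕ × ℕ → ℕ × ℕ → Prop
  | cup1 {t i j : ℕ} (h : D[t]? = some (.cup i)) (h1 : j < i) : SAdj D S (t, j) (t + 1, j)
  | cup2 {t i j : ℕ} (h : D[t]? = some (.cup i)) (h1 : i ≤ j) : SAdj D S (t, j) (t + 1, j + 2)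
  | cup3 {t i : ℕ} (h : D[t]? = some (.cup i)) : SAdj D S (t + 1, i) (t + 1, i + 1)
  | cap1 {t i j : ℕ} (h : D[t]? = some (.cap i)) (h1 : j < i) : SAdj D S (t, j) (t + 1, j)
  | cap2 {t i j : ℕ} (h : D[t]? = some (.cap i)) (h1 : i ≤ j) : SAdj D S (t, j + 2) (t + 1, j)
  | cap3 {t i : ℕ} (h : D[t]? = some (.cap i)) : SAdj D S (t, i) (t, i + 1)
  | cr0 {t i j : ℕ} {o : Bool} (h : D[t]? = some (.cr i o)) (h1 : j ≠ i) (h2 : j ≠ i + 1) :
      SAdj D S (t, j) (t + 1, j)
  | crV {t i j : ℕ} {o : Bool} (h : D[t]? = some (.cr i o)) (h1 : j = i ∨ j = i + 1)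
      (hs : t ∈ S ↔ o = true) : SAdj D S (t, j) (t + 1, j)
  | crH {t i t' : ℕ} {o : Bool} (h : D[t]? = some (.cr i o)) (h1 : t' = t ∨ t' = t + 1)
      (hs : ¬ (t ∈ S ↔ o = true)) : SAdj D S (t', i) (t', i + 1)

/-- The number of circles of the state `S` of the closed word `D`. -/
noncomputable def circles (D : List Ev) (S : Finset ℕ) : ℕ :=
  Nat.card (Quot fun P Q : {P : ℕ × ℕ // P.1 ≤ D.length ∧ P.2 < wd D P.1} => SAdj D S P.1 Q.1)

/-- The numbers of the pieces of `D` which are crossings. -/
noncomputable def crs (D : List Ev) : Finset ℕ :=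
  open scoped Classical in (Finset.range D.length).filter fun t => ∃ i o, D[t]? = some (.cr i o)

/-- The Kauffman bracket of the closed word `D`, normalised so that the circle without crossings has
the bracket `1`. The Jones polynomial is `(-A^3)^(-w)` times the bracket, at `t = A^(-4)`. -/
noncomputable def bracket (D : List Ev) : LaurentPolynomial ℤ :=
  ∑ S ∈ (crs D).powerset, LaurentPolynomial.T ((S.card : ℤ) - ((crs D \ S).card : ℤ)) *
    (-LaurentPolynomial.T 2 - LaurentPolynomial.T (-2)) ^ (circles D S - 1)

end MPdalt
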