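import Pool.Agent.Lib.MP_29ee6d_gt.Defs

/-!
# Words and isotopies: basic lemmas
-/

set_option autoImplicit false

namespace MPdalt

theorem word_nil {n n' : ℕ} : Word n [] n' ↔ n = n' := by
  constructor
  · intro h
    cases h
    rfl
  · rintro rfl
    exact Word.nil _

theorem word_cup {n n' i : ℕ} {W : List Ev} : Word n (.cup i :: W) n' ↔ i ≤ n ∧ Word (n + 2) W n' := by
  constructor
  · intro h
    cases h with
    | cup _ h hW => exact ⟨h, hW⟩
  · rintro ⟨h, hW⟩
    exact Word.cup i h hW

theorem word_cap {n n' i : ℕ} {W : List Ev} :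
    Word n (.cap i :: W) n' ↔ i + 2 ≤ n ∧ Word (n - 2) W n' := by
  constructor
  · intro h
    cases h with
    | cap _ h hW => exact ⟨by omega, hW⟩
  · rintro ⟨h, hW⟩
    obtain ⟨m, rfl⟩ : ∃ m, n = m + 2 := ⟨n - 2, by omega⟩
    exact Word.cap i (by omega) hW

theorem word_cr {n n' i : ℕ} {o : Bool} {W : List Ev} :
    Word n (.cr i o :: W) n' ↔ i + 2 ≤ n ∧ Word n W n' := by
  constructor
  · intro h
    cases h with
    | cr _ _ h hW => exact ⟨by omega, hW⟩
  · rintro ⟨h, hW⟩
    obtain ⟨m, rfl⟩ : ∃ m, n = m + 2 := ⟨n - 2, by omega⟩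
    exact Word.cr i o (by omega) hW

theorem Word.append {a b c : ℕ} {W V : List Ev} (hW : Word a W b) (hV : Word b V c) :
    Word a (W ++ V) c := by
  induction hW with
  | nil n => exact hV
  | cup i h _ ih => exact Word.cup i h (ih hV)
  | cap i h _ ih => exact Word.cap i h (ih hV)
  | cr i o h _ ih => exact Word.cr i o h (ih hV)

theorem word_append {a c : ℕ} {W V : List Ev} :
    Word a (W ++ V) c ↔ ∃ b, Word a W b ∧ Word b V c := by
  constructor
  · intro h
    induction W generalizing a with
    | nil => exact ⟨a, Word.nil a, h⟩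
    | cons e W ih =>
      cases e with
      | cup i =>
        obtain ⟨h1, h2⟩ := word_cup.1 h
        obtain ⟨b, h3, h4⟩ := ih h2
        exact ⟨b, word_cup.2 ⟨h1, h3⟩, h4⟩
      | cap i =>
        obtain ⟨h1, h2⟩ := word_cap.1 h
        obtain ⟨b, h3, h4⟩ := ih h2
        exact ⟨b, word_cap.2 ⟨h1, h3⟩, h4⟩
      | cr i o =>
        obtain ⟨h1, h2⟩ := word_cr.1 h
        obtain ⟨b, h3, h4⟩ := ih h2
        exact ⟨b, word_cr.2 ⟨h1, h3⟩, h4⟩
  · rintro ⟨b, h1, h2⟩
    exact h1.append h2

theorem Word.unique {a b b' : ℕ} {W : List Ev} (h : Word a W b) (h' : Word a W b') : b = b' := by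
  induction h with
  | nil n => exact (word_nil.1 h')
  | cup i _ _ ih => exact ih (word_cup.1 h').2
  | cap i _ _ ih => exact ih (word_cap.1 h').2
  | cr i o _ _ ih => exact ih (word_cr.1 h').2

theorem Word.shift {a b : ℕ} {W : List Ev} (h : Word a W b) (p q : ℕ) :
    Word (p + a + q) (shW p W) (p + b + q) := by
  induction h with
  | nil n => exact Word.nil _
  | @cup n n' W i h _ ih =>
    have e : p + (n + 2) + q = p + n + q + 2 := by omega
    rw [e] at ih
    exact Word.cup _ (by omega) ih
  | @cap n n' W i h _ ih =>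
    have e : p + (n + 2) + q = p + n + q + 2 := by omega
    rw [e]
    exact Word.cap _ (by omega) ih
  | @cr n n' W i o h _ ih =>
    have e : p + (n + 2) + q = p + n + q + 2 := by omega
    rw [e] at ih ⊢
    exact Word.cr _ o (by omega) ih

theorem shW_append (p : ℕ) (W V : List Ev) : shW p (W ++ V) = shW p W ++ shW p V := List.map_append

theorem sh_sh (p k : ℕ) (e : Ev) : (e.sh k).sh p = e.sh (p + k) := by
  cases e <;> simp only [Ev.sh, Nat.add_assoc]

theorem shW_shW (p k : ℕ) (W : List Ev) : shW p (shW k W) = shW (p + k) W := by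
  unfold shW
  rw [List.map_map]
  exact List.map_congr_left fun e _ => sh_sh p k e

theorem shW_zero (W : List Ev) : shW 0 W = W := by
  unfold shW
  refine (List.map_congr_left fun e _ => ?_).trans (List.map_id W)
  cases e <;> simp only [Ev.sh, Nat.zero_add, id]

theorem sh_pos (p : ℕ) (e : Ev) : (e.sh p).pos = p + e.pos := by cases e <;> rfl

theorem sh_inn (p : ℕ) (e : Ev) : (e.sh p).inn = e.inn := by cases e <;> rfl

theorem sh_out (p : ℕ) (e : Ev) : (e.sh p).out = e.out := by cases e <;> rfl

theorem Mv.shift {x y : List Ev} (h : Mv x y) (p : ℕ) : Mv (shW p x) (shW p y) := by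
  cases h with
  | far e f =>
    have h := Mv.far (e.sh p) f
    rw [sh_pos, sh_inn, sh_out] at h
    unfold shW
    simp only [List.map_cons, List.map_nil, sh_sh]
    rw [← Nat.add_assoc, ← Nat.add_assoc]
    exact h
  | zig i => exact Mv.zig (p + i)
  | zag i => exact Mv.zag (p + i)
  | cupSlide i o => exact Mv.cupSlide (p + i) o
  | capSlide i o => exact Mv.capSlide (p + i) o
  | r1cup i o => exact Mv.r1cup (p + i) o
  | r1cap i o => exact Mv.r1cap (p + i) o
  | r2 i o => exact Mv.r2 (p + i) o
  | r3 i a b c h => exact Mv.r3 (p + i) a b c h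

theorem Iso.refl {n n' : ℕ} (W : List Ev) : Iso n n' W W := Relation.EqvGen.refl W

theorem Iso.symm {n n' : ℕ} {W V : List Ev} (h : Iso n n' W V) : Iso n n' V W :=
  Relation.EqvGen.symm _ _ h

theorem Iso.trans {n n' : ℕ} {W V U : List Ev} (h : Iso n n' W V) (h' : Iso n n' V U) :
    Iso n n' W U := Relation.EqvGen.trans _ _ _ h h'

theorem Iso.of_mv {n n' : ℕ} {x y : List Ev} (h : Mv x y) (hx : Word n x n') (hy : Word n y n') :
    Iso n n' x y := by
  refine Relation.EqvGen.rel _ _ ⟨hx, hy, [], [], x, y, ?_, ?_, h⟩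
  · rw [List.nil_append, List.append_nil]
  · rw [List.nil_append, List.append_nil]

theorem Iso.left {a b c : ℕ} {u x y : List Ev} (hu : Word a u b) (h : Iso b c x y) :
    Iso a c (u ++ x) (u ++ y) := by
  induction h with
  | rel x y h =>
    obtain ⟨h1, h2, u', v, x', y', rfl, rfl, hm⟩ := h
    refine Relation.EqvGen.rel _ _ ⟨hu.append h1, hu.append h2, u ++ u', v, x', y', ?_, ?_, hm⟩
    · simp only [List.append_assoc]
    · simp only [List.append_assoc]
  | refl x => exact Iso.refl _
  | symm x y _ ih => exact ih.symm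
  | trans x y z _ _ ih1 ih2 => exact ih1.trans ih2

theorem Iso.right {a b c : ℕ} {v x y : List Ev} (hv : Word b v c) (h : Iso a b x y) :
    Iso a c (x ++ v) (y ++ v) := by
  induction h with
  | rel x y h =>
    obtain ⟨h1, h2, u, v', x', y', rfl, rfl, hm⟩ := h
    refine Relation.EqvGen.rel _ _ ⟨h1.append hv, h2.append hv, u, v' ++ v, x', y', ?_, ?_, hm⟩
    · simp only [List.append_assoc]
    · simp only [List.append_assoc]
  | refl x => exact Iso.refl _
  | symm x y _ ih => exact ih.symm
  | trans x y z _ _ ih1 ih2 => exact ih1.trans ih2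

theorem Iso.shift {a b : ℕ} {x y : List Ev} (h : Iso a b x y) (p q : ℕ) :
    Iso (p + a + q) (p + b + q) (shW p x) (shW p y) := by
  induction h with
  | rel x y h =>
    obtain ⟨h1, h2, u, v, x', y', rfl, rfl, hm⟩ := h
    refine Relation.EqvGen.rel _ _ ⟨h1.shift p q, h2.shift p q, shW p u, shW p v, shW p x', shW p y',
      ?_, ?_, hm.shift p⟩
    · rw [shW_append, shW_append]
    · rw [shW_append, shW_append]
  | refl x => exact Iso.refl _
  | symm x y _ ih => exact ih.symm
  | trans x y z _ _ ih1 ih2 => exact ih1.trans ih2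

theorem Iso.word {a b : ℕ} {x y : List Ev} (h : Iso a b x y) : Word a x b ↔ Word a y b := by
  induction h with
  | rel x y h => exact ⟨fun _ => h.2.1, fun _ => h.1⟩
  | refl x => exact Iff.rfl
  | symm x y _ ih => exact ih.symm
  | trans x y z _ _ ih1 ih2 => exact ih1.trans ih2

end MPdalt
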