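import Pool.Agent.Lib.MP_29ee6d_gt.Isot

/-!
# A strand passes over a tangle; the swing of a strand around a box
-/

set_option autoImplicit false

namespace MPdalt

/-- The strand number `p` crosses the next `a` strands to its right; it is the upper strand iff `ε`. -/
def RW (ε : Bool) (p : ℕ) : ℕ → List Ev
  | 0 => []
  | a + 1 => .cr p ε :: RW ε (p + 1) a

/-- The strand number `p + a` crosses the `a` strands to its left; it is the upper strand iff `ε`. -/
def LW (ε : Bool) (p : ℕ) : ℕ → List Ev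
  | 0 => []
  | a + 1 => LW ε (p + 1) a ++ [.cr p (!ε)]

theorem Iso.mid {a b c d : ℕ} {u v x y : List Ev} (hu : Word a u b) (h : Iso b c x y) (hv : Word c v d) :
    Iso a d (u ++ (x ++ v)) (u ++ (y ++ v)) := Iso.left hu (Iso.right hv h)

theorem RW_add (ε : Bool) (p a b : ℕ) : RW ε p (a + b) = RW ε p a ++ RW ε (p + a) b := by
  induction a generalizing p with
  | zero => rw [Nat.zero_add]; rfl
  | succ a ih =>
    rw [Nat.add_right_comm a 1 b]
    change _ :: RW ε (p + 1) (a + b) = _ :: (RW ε (p + 1) a ++ RW ε (p + (a + 1)) b)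
    rw [ih, Nat.add_assoc p 1 a, Nat.add_comm 1 a]

theorem word_RW {ε : Bool} {p a n : ℕ} (h : p + a + 1 ≤ n) : Word n (RW ε p a) n := by
  induction a generalizing p with
  | zero => exact Word.nil n
  | succ a ih => exact word_cr.2 ⟨by omega, ih (by omega)⟩

theorem word_LW {ε : Bool} {p a n : ℕ} (h : p + a + 1 ≤ n) : Word n (LW ε p a) n := by
  induction a generalizing p with
  | zero => exact Word.nil n
  | succ a ih => exact (ih (by omega)).append (word_cr.2 ⟨by omega, Word.nil n⟩)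

theorem iso_r2 {n i : ℕ} (o : Bool) (h : i + 2 ≤ n) : Iso n n [.cr i o, .cr i (!o)] [] :=
  Iso.of_mv (Mv.r2 i o) (word_cr.2 ⟨h, word_cr.2 ⟨h, Word.nil n⟩⟩) (Word.nil n)

theorem iso_RL (ε : Bool) {p a n : ℕ} (h : p + a + 1 ≤ n) : Iso n n (RW ε p a ++ LW ε p a) [] := by
  induction a generalizing p with
  | zero => exact Iso.refl _
  | succ a ih =>
    have e1 : RW ε p (a + 1) ++ LW ε p (a + 1) =
        [.cr p ε] ++ ((RW ε (p + 1) a ++ LW ε (p + 1) a) ++ [.cr p (!ε)]) := by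
      change .cr p ε :: (RW ε (p + 1) a ++ (LW ε (p + 1) a ++ [.cr p (!ε)])) = _
      rw [List.append_assoc]
      rfl
    rw [e1]
    refine (Iso.mid (word_cr.2 ⟨by omega, Word.nil n⟩) (ih (by omega))
      (word_cr.2 ⟨by omega, Word.nil n⟩)).trans ?_
    exact iso_r2 ε (by omega)

theorem exists_sh {k : ℕ} {f : Ev} (h : k ≤ f.pos) : ∃ g : Ev, f = g.sh k := by
  cases f with
  | cup i => exact ⟨.cup (i - k), by simp only [Ev.pos] at h; simp only [Ev.sh]; rw [Nat.add_sub_cancel' h]⟩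
  | cap i => exact ⟨.cap (i - k), by simp only [Ev.pos] at h; simp only [Ev.sh]; rw [Nat.add_sub_cancel' h]⟩
  | cr i o => exact ⟨.cr (i - k) o, by simp only [Ev.pos] at h; simp only [Ev.sh]; rw [Nat.add_sub_cancel' h]⟩

theorem iso_cr_left {n n' j : ℕ} (o : Bool) {f : Ev} (hf : Word n [f] n') (h : j + 2 ≤ f.pos) :
    Iso n n' [.cr j o, f] [f, .cr j o] := by
  obtain ⟨g, rfl⟩ := exists_sh h
  refine Iso.of_mv (Mv.far (.cr j o) g) ?_ ?_
  · have hn : j + 2 ≤ n := by
      cases g <;> simp only [Ev.sh, Ev.pos, word_cup, word_cap, word_cr] at hf h <;> omega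
    exact word_cr.2 ⟨hn, hf⟩
  · have hn : j + 2 ≤ n' := by
      cases g <;> simp only [Ev.sh, Ev.pos, word_cup, word_cap, word_cr, word_nil] at hf h <;> omega
    exact hf.append (word_cr.2 ⟨hn, Word.nil n'⟩)

/-- Crossings to the left commute with a piece to the right. -/
theorem iso_RW_left (ε : Bool) {n n' p i : ℕ} {f : Ev} (hf : Word n [f] n') (h : p + i + 1 ≤ f.pos) :
    Iso n n' (RW ε p i ++ [f]) ([f] ++ RW ε p i) := by
  have hn : f.pos ≤ n := by
    cases f <;> simp only [Ev.pos, word_cup, word_cap, word_cr] at hf ⊢ <;> omega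
  have hn' : f.pos ≤ n' := by
    cases f <;> simp only [Ev.pos, word_cup, word_cap, word_cr, word_nil] at hf ⊢ <;> omega
  induction i generalizing p with
  | zero => exact Iso.refl _
  | succ i ih =>
    have h1 : Iso n n' (RW ε p (i + 1) ++ [f]) ([.cr p ε] ++ ([f] ++ RW ε (p + 1) i)) :=
      Iso.left (u := [.cr p ε]) (word_cr.2 ⟨by omega, Word.nil n⟩) (ih (by omega))
    have h2 : Iso n n' ([.cr p ε] ++ ([f] ++ RW ε (p + 1) i)) ([f, .cr p ε] ++ RW ε (p + 1) i) :=
      Iso.right (x := [.cr p ε, f]) (word_RW (by omega)) (iso_cr_left ε hf (by omega))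
    exact h1.trans h2

/-- Crossings to the right commute with a piece to the left. -/
theorem iso_RW_right (ε : Bool) {n n' j r : ℕ} {e : Ev} (he : Word n [e] n')
    (h : r = 0 ∨ e.pos + e.inn + j + r + 1 ≤ n) :
    Iso n n' ([e] ++ RW ε (e.pos + e.out + j) r) (RW ε (e.pos + e.inn + j) r ++ [e]) := by
  induction r generalizing j with
  | zero => exact Iso.refl _
  | succ r ih =>
    have hn : e.pos + e.inn + j + (r + 1) + 1 ≤ n := by omega
    have hn' : e.pos + e.out + j + (r + 1) + 1 ≤ n' := by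
      cases e <;> simp only [Ev.pos, Ev.inn, Ev.out, word_cup, word_cap, word_cr, word_nil] at he hn ⊢ <;> omega
    have h1 : Iso n n' [e, .cr (e.pos + e.out + j) ε] [.cr (e.pos + e.inn + j) ε, e] := by
      refine Iso.of_mv (Mv.far e (.cr j ε)) ?_ ?_
      · exact he.append (word_cr.2 ⟨by omega, Word.nil n'⟩)
      · exact word_cr.2 ⟨by omega, he⟩
    have h2 := ih (j := j + 1) (by omega)
    have h3 : Iso n n' ([e] ++ RW ε (e.pos + e.out + j) (r + 1))
        ([.cr (e.pos + e.inn + j) ε, e] ++ RW ε (e.pos + e.out + (j + 1)) r) :=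
      Iso.right (x := [e, .cr (e.pos + e.out + j) ε]) (word_RW (by omega)) h1
    have h4 : Iso n n' ([.cr (e.pos + e.inn + j) ε] ++ ([e] ++ RW ε (e.pos + e.out + (j + 1)) r))
        ([.cr (e.pos + e.inn + j) ε] ++ (RW ε (e.pos + e.inn + (j + 1)) r ++ [e])) :=
      Iso.left (word_cr.2 ⟨by omega, Word.nil n⟩) h2
    exact h3.trans h4

theorem iso_K1 (ε : Bool) {n s : ℕ} (h : s + 1 ≤ n) :
    Iso n (n + 2) [.cup (s + 1), .cr s ε, .cr (s + 1) ε] [.cup s] := by
  have h1 : Iso n (n + 2) [.cup s, .cr (s + 1) (!ε)] [.cup (s + 1), .cr s (!!ε)] :=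
    Iso.of_mv (Mv.cupSlide s (!ε)) (word_cup.2 ⟨by omega, word_cr.2 ⟨by omega, Word.nil _⟩⟩)
      (word_cup.2 ⟨by omega, word_cr.2 ⟨by omega, Word.nil _⟩⟩)
  rw [Bool.not_not] at h1
  have h2 : Iso n (n + 2) ([.cup (s + 1), .cr s ε] ++ [.cr (s + 1) ε])
      ([.cup s, .cr (s + 1) (!ε)] ++ [.cr (s + 1) ε]) :=
    Iso.right (word_cr.2 ⟨by omega, Word.nil _⟩) h1.symm
  have h3 := iso_r2 (n := n + 2) (i := s + 1) (!ε) (by omega)
  rw [Bool.not_not] at h3
  have h4 : Iso n (n + 2) ([.cup s] ++ [.cr (s + 1) (!ε), .cr (s + 1) ε]) ([.cup s] ++ []) :=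
    Iso.left (word_cup.2 ⟨by omega, Word.nil _⟩) h3
  exact h2.trans h4

theorem iso_K2 (ε : Bool) {n s : ℕ} (h : s + 1 ≤ n) :
    Iso (n + 2) n [.cr s ε, .cr (s + 1) ε, .cap s] [.cap (s + 1)] := by
  have h1 : Iso (n + 2) n [.cr (s + 1) ε, .cap s] [.cr s (!ε), .cap (s + 1)] :=
    Iso.of_mv (Mv.capSlide s ε)
      (word_cr.2 ⟨by omega, word_cap.2 ⟨by omega, by rw [Nat.add_sub_cancel]; exact Word.nil _⟩⟩)
      (word_cr.2 ⟨by omega, word_cap.2 ⟨by omega, by rw [Nat.add_sub_cancel]; exact Word.nil _⟩⟩)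
  have h2 : Iso (n + 2) n ([.cr s ε] ++ [.cr (s + 1) ε, .cap s]) ([.cr s ε] ++ [.cr s (!ε), .cap (s + 1)]) :=
    Iso.left (word_cr.2 ⟨by omega, Word.nil _⟩) h1
  have h3 : Iso (n + 2) n ([.cr s ε, .cr s (!ε)] ++ [.cap (s + 1)]) ([] ++ [.cap (s + 1)]) :=
    Iso.right (word_cap.2 ⟨by omega, by rw [Nat.add_sub_cancel]; exact Word.nil _⟩) (iso_r2 ε (by omega))
  exact h2.trans h3

/-- A strand passes over (or under) one piece. -/
theorem iso_pass1 (ε : Bool) {a a' : ℕ} {e : Ev} (he : Word a [e] a') (p q : ℕ) :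
    Iso (p + (a + 1) + q) (p + (a' + 1) + q) (RW ε p a ++ [e.sh p]) ([e.sh (p + 1)] ++ RW ε p a') := by
  cases e with
  | cup i =>
    obtain ⟨h1, h2⟩ := word_cup.1 he
    obtain ⟨r, rfl⟩ : ∃ r, a = i + r := ⟨a - i, by omega⟩
    obtain rfl : i + r + 2 = a' := word_nil.1 h2
    have e1 : RW ε p (i + r) = RW ε p i ++ RW ε (p + i) r := RW_add ε p i r
    have e2 : RW ε p (i + r + 2) = RW ε p i ++ ([.cr (p + i) ε, .cr (p + i + 1) ε] ++ RW ε (p + i + 2) r) := by
      rw [show i + r + 2 = i + (r + 2) from by omega, RW_add]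
      rfl
    rw [e1, e2]
    have s1 : Iso (p + (i + r + 1) + q) (p + (i + r + 2 + 1) + q)
        ([.cup (p + 1 + i)] ++ (RW ε p i ++ ([.cr (p + i) ε, .cr (p + i + 1) ε] ++ RW ε (p + i + 2) r)))
        ((RW ε p i ++ [.cup (p + i + 1)]) ++ ([.cr (p + i) ε, .cr (p + i + 1) ε] ++ RW ε (p + i + 2) r)) := by
      have t := iso_RW_left ε (n := p + (i + r + 1) + q) (n' := p + (i + r + 1) + q + 2) (p := p) (i := i)
        (f := .cup (p + i + 1)) (word_cup.2 ⟨by omega, Word.nil _⟩) (by simp only [Ev.pos]; omega)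
      have e3 : p + 1 + i = p + i + 1 := by omega
      rw [e3]
      have e4 : p + (i + r + 2 + 1) + q = p + (i + r + 1) + q + 2 := by omega
      rw [e4]
      have t2 := Iso.right (v := [.cr (p + i) ε, .cr (p + i + 1) ε] ++ RW ε (p + i + 2) r)
        (c := p + (i + r + 1) + q + 2)
        (word_cr.2 ⟨by omega, word_cr.2 ⟨by omega, word_RW (by omega)⟩⟩) t.symm
      rw [List.append_assoc] at t2
      exact t2
    have s2 : Iso (p + (i + r + 1) + q) (p + (i + r + 2 + 1) + q)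
        ((RW ε p i ++ [.cup (p + i + 1)]) ++ ([.cr (p + i) ε, .cr (p + i + 1) ε] ++ RW ε (p + i + 2) r))
        (RW ε p i ++ ([.cup (p + i)] ++ RW ε (p + i + 2) r)) := by
      have e4 : p + (i + r + 2 + 1) + q = p + (i + r + 1) + q + 2 := by omega
      rw [e4]
      have t := iso_K1 ε (n := p + (i + r + 1) + q) (s := p + i) (by omega)
      have t2 := Iso.mid (u := RW ε p i) (v := RW ε (p + i + 2) r) (word_RW (by omega)) t
        (word_RW (by omega))
      rw [List.append_assoc]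
      exact t2
    have s3 : Iso (p + (i + r + 1) + q) (p + (i + r + 2 + 1) + q)
        (RW ε p i ++ ([.cup (p + i)] ++ RW ε (p + i + 2) r)) (RW ε p i ++ (RW ε (p + i) r ++ [.cup (p + i)])) := by
      have e4 : p + (i + r + 2 + 1) + q = p + (i + r + 1) + q + 2 := by omega
      rw [e4]
      refine Iso.left (word_RW (by omega)) ?_
      exact iso_RW_right ε (e := .cup (p + i)) (j := 0) (r := r) (word_cup.2 ⟨by omega, Word.nil _⟩)
        (Or.inr (by simp only [Ev.pos, Ev.inn]; omega))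
    have s4 := (s1.trans (s2.trans s3)).symm
    rw [← List.append_assoc] at s4
    exact s4
  | cap i =>
    obtain ⟨h1, h2⟩ := word_cap.1 he
    obtain ⟨r, rfl⟩ : ∃ r, a = i + r + 2 := ⟨a - 2 - i, by omega⟩
    obtain rfl : i + r = a' := by
      have := word_nil.1 h2
      omega
    have e1 : RW ε p (i + r) = RW ε p i ++ RW ε (p + i) r := RW_add ε p i r
    have e2 : RW ε p (i + r + 2) = RW ε p i ++ ([.cr (p + i) ε, .cr (p + i + 1) ε] ++ RW ε (p + i + 2) r) := by
      rw [show i + r + 2 = i + (r + 2) from by omega, RW_add]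
      rfl
    rw [e1, e2]
    have e4 : p + (i + r + 2 + 1) + q = p + (i + r + 1) + q + 2 := by omega
    rw [e4]
    obtain ⟨N, hN⟩ : ∃ N, N = p + (i + r + 1) + q := ⟨_, rfl⟩
    rw [← hN]
    have wcap : ∀ j, j ≤ N → Word (N + 2) [.cap j] N := fun j hj =>
      word_cap.2 ⟨by omega, by rw [Nat.add_sub_cancel]; exact Word.nil _⟩
    have t1 := iso_RW_right ε (n := N + 2) (n' := N) (e := .cap (p + i)) (j := 0) (r := r)
      (wcap _ (by omega)) (Or.inr (by simp only [Ev.pos, Ev.inn]; omega))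
    have s1 : Iso (N + 2) N (RW ε p i ++ ([.cr (p + i) ε, .cr (p + i + 1) ε] ++ (RW ε (p + i + 2) r ++ [.cap (p + i)])))
        (RW ε p i ++ ([.cr (p + i) ε, .cr (p + i + 1) ε] ++ ([.cap (p + i)] ++ RW ε (p + i) r))) :=
      Iso.left (word_RW (by omega)) (Iso.left (word_cr.2 ⟨by omega, word_cr.2 ⟨by omega, Word.nil _⟩⟩) t1.symm)
    have s2 : Iso (N + 2) N (RW ε p i ++ ([.cr (p + i) ε, .cr (p + i + 1) ε, .cap (p + i)] ++ RW ε (p + i) r))
        (RW ε p i ++ ([.cap (p + i + 1)] ++ RW ε (p + i) r)) :=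
      Iso.mid (word_RW (by omega)) (iso_K2 ε (by omega)) (word_RW (by omega))
    have s3 : Iso (N + 2) N ((RW ε p i ++ [.cap (p + i + 1)]) ++ RW ε (p + i) r)
        (([.cap (p + i + 1)] ++ RW ε p i) ++ RW ε (p + i) r) :=
      Iso.right (word_RW (by omega)) (iso_RW_left ε (wcap _ (by omega)) (by simp only [Ev.pos]; omega))
    have e3 : p + 1 + i = p + i + 1 := by omega
    have s4 : Iso (N + 2) N (RW ε p i ++ ([.cr (p + i) ε, .cr (p + i + 1) ε] ++ (RW ε (p + i + 2) r ++ [.cap (p + i)])))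
        (([.cap (p + i + 1)] ++ RW ε p i) ++ RW ε (p + i) r) := by
      refine s1.trans (s2.trans ?_)
      rw [List.append_assoc] at s3
      exact s3
    rw [List.append_assoc, List.append_assoc]
    rw [List.append_assoc] at s4
    change Iso (N + 2) N _ ([.cap (p + 1 + i)] ++ (RW ε p i ++ RW ε (p + i) r))
    rw [e3]
    exact s4
  | cr i o =>
    obtain ⟨h1, h2⟩ := word_cr.1 he
    obtain ⟨r, rfl⟩ : ∃ r, a = i + r + 2 := ⟨a - 2 - i, by omega⟩
    obtain rfl : i + r + 2 = a' := word_nil.1 h2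
    have e2 : RW ε p (i + r + 2) = RW ε p i ++ ([.cr (p + i) ε, .cr (p + i + 1) ε] ++ RW ε (p + i + 2) r) := by
      rw [show i + r + 2 = i + (r + 2) from by omega, RW_add]
      rfl
    rw [e2]
    obtain ⟨N, hN⟩ : ∃ N, N = p + (i + r + 2 + 1) + q := ⟨_, rfl⟩
    rw [← hN]
    have wcr : ∀ (j : ℕ) (o : Bool), j + 2 ≤ N → Word N [.cr j o] N := fun j o hj =>
      word_cr.2 ⟨hj, Word.nil _⟩
    have t1 := iso_RW_right ε (n := N) (n' := N) (e := .cr (p + i) o) (j := 0) (r := r)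
      (wcr _ _ (by omega)) (Or.inr (by simp only [Ev.pos, Ev.inn]; omega))
    have s1 : Iso N N (RW ε p i ++ ([.cr (p + i) ε, .cr (p + i + 1) ε] ++ (RW ε (p + i + 2) r ++ [.cr (p + i) o])))
        (RW ε p i ++ ([.cr (p + i) ε, .cr (p + i + 1) ε] ++ ([.cr (p + i) o] ++ RW ε (p + i + 2) r))) :=
      Iso.left (word_RW (by omega)) (Iso.left (word_cr.2 ⟨by omega, word_cr.2 ⟨by omega, Word.nil _⟩⟩) t1.symm)
    have t2 : Iso N N [.cr (p + i) ε, .cr (p + i + 1) ε, .cr (p + i) o]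
        [.cr (p + i + 1) o, .cr (p + i) ε, .cr (p + i + 1) ε] :=
      Iso.of_mv (Mv.r3 (p + i) ε ε o (Or.inl rfl))
        (word_cr.2 ⟨by omega, word_cr.2 ⟨by omega, wcr _ _ (by omega)⟩⟩)
        (word_cr.2 ⟨by omega, word_cr.2 ⟨by omega, wcr _ _ (by omega)⟩⟩)
    have s2 : Iso N N (RW ε p i ++ ([.cr (p + i) ε, .cr (p + i + 1) ε, .cr (p + i) o] ++ RW ε (p + i + 2) r))
        (RW ε p i ++ ([.cr (p + i + 1) o, .cr (p + i) ε, .cr (p + i + 1) ε] ++ RW ε (p + i + 2) r)) :=
      Iso.mid (word_RW (by omega)) t2 (word_RW (by omega))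
    have s3 : Iso N N ((RW ε p i ++ [.cr (p + i + 1) o]) ++ ([.cr (p + i) ε, .cr (p + i + 1) ε] ++ RW ε (p + i + 2) r))
        (([.cr (p + i + 1) o] ++ RW ε p i) ++ ([.cr (p + i) ε, .cr (p + i + 1) ε] ++ RW ε (p + i + 2) r)) :=
      Iso.right (word_cr.2 ⟨by omega, word_cr.2 ⟨by omega, word_RW (by omega)⟩⟩)
        (iso_RW_left ε (wcr _ _ (by omega)) (by simp only [Ev.pos]; omega))
    have e3 : p + 1 + i = p + i + 1 := by omega
    rw [List.append_assoc, List.append_assoc] at s3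
    rw [List.append_assoc, List.append_assoc]
    change Iso N N _ ([.cr (p + 1 + i) o] ++ (RW ε p i ++ ([.cr (p + i) ε, .cr (p + i + 1) ε] ++ RW ε (p + i + 2) r)))
    rw [e3]
    exact s1.trans (s2.trans s3)

/-- A strand passes over (or under) a tangle. -/
theorem iso_pass (ε : Bool) {a b : ℕ} {W : List Ev} (hW : Word a W b) (p q : ℕ) :
    Iso (p + (a + 1) + q) (p + (b + 1) + q) (RW ε p a ++ shW p W) (shW (p + 1) W ++ RW ε p b) := by
  have step : ∀ {a a' b : ℕ} {e : Ev} {W : List Ev}, Word a [e] a' → Word a' W b →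
      Iso (p + (a' + 1) + q) (p + (b + 1) + q) (RW ε p a' ++ shW p W) (shW (p + 1) W ++ RW ε p b) →
      Iso (p + (a + 1) + q) (p + (b + 1) + q) (RW ε p a ++ shW p (e :: W)) (shW (p + 1) (e :: W) ++ RW ε p b) := by
    intro a a' b e W he hW ih
    have s1 : Iso (p + (a + 1) + q) (p + (b + 1) + q) ((RW ε p a ++ [e.sh p]) ++ shW p W)
        (([e.sh (p + 1)] ++ RW ε p a') ++ shW p W) := by
      refine Iso.right (b := p + (a' + 1) + q) ?_ (iso_pass1 ε he p q)
      have := hW.shift p (1 + q)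
      have e1 : p + a' + (1 + q) = p + (a' + 1) + q := by omega
      have e2 : p + b + (1 + q) = p + (b + 1) + q := by omega
      rwa [e1, e2] at this
    have s2 : Iso (p + (a + 1) + q) (p + (b + 1) + q) ([e.sh (p + 1)] ++ (RW ε p a' ++ shW p W))
        ([e.sh (p + 1)] ++ (shW (p + 1) W ++ RW ε p b)) := by
      refine Iso.left (b := p + (a' + 1) + q) ?_ ih
      have := he.shift (p + 1) q
      have e1 : p + 1 + a + q = p + (a + 1) + q := by omega
      have e2 : p + 1 + a' + q = p + (a' + 1) + q := by omega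
      rwa [e1, e2] at this
    rw [List.append_assoc, List.append_assoc] at s1
    exact s1.trans s2
  induction hW with
  | nil n =>
    have e1 : shW p [] = [] := rfl
    have e2 : shW (p + 1) [] = [] := rfl
    rw [e1, e2, List.append_nil, List.nil_append]
    exact Iso.refl _
  | @cup n n' W i h hW ih => exact step (word_cup.2 ⟨h, Word.nil _⟩) hW ih
  | @cap n n' W i h hW ih =>
    exact step (word_cap.2 ⟨by omega, by rw [Nat.add_sub_cancel]; exact Word.nil _⟩) hW ih
  | @cr n n' W i o h hW ih => exact step (word_cr.2 ⟨by omega, Word.nil _⟩) hW ih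

/-- A maximum passes a tangle to its right. -/
theorem iso_cap_left {a b : ℕ} {W : List Ev} (hW : Word a W b) (p q : ℕ) :
    Iso (p + 2 + a + q) (p + b + q) ([.cap p] ++ shW p W) (shW (p + 2) W ++ [.cap p]) := by
  have step : ∀ {a a' b : ℕ} {e : Ev} {W : List Ev}, Word a [e] a' → Word a' W b →
      Iso (p + 2 + a' + q) (p + b + q) ([.cap p] ++ shW p W) (shW (p + 2) W ++ [.cap p]) →
      Iso (p + 2 + a + q) (p + b + q) ([.cap p] ++ shW p (e :: W)) (shW (p + 2) (e :: W) ++ [.cap p]) := by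
    intro a a' b e W he hW ih
    have w1 : Word (p + 2 + a + q) [.cap p] (p + a + q) := by
      refine word_cap.2 ⟨by omega, ?_⟩
      rw [show p + 2 + a + q - 2 = p + a + q from by omega]
      exact Word.nil _
    have w1' : Word (p + 2 + a' + q) [.cap p] (p + a' + q) := by
      refine word_cap.2 ⟨by omega, ?_⟩
      rw [show p + 2 + a' + q - 2 = p + a' + q from by omega]
      exact Word.nil _
    have w2 := he.shift p q
    have w3 := he.shift (p + 2) q
    have t1 : Iso (p + 2 + a + q) (p + a' + q) [.cap p, e.sh p] [e.sh (p + 2), .cap p] :=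
      Iso.of_mv (Mv.far (.cap p) e) (w1.append w2) (w3.append w1')
    have s1 : Iso (p + 2 + a + q) (p + b + q) ([.cap p, e.sh p] ++ shW p W) ([e.sh (p + 2), .cap p] ++ shW p W) :=
      Iso.right (hW.shift p q) t1
    have s2 : Iso (p + 2 + a + q) (p + b + q) ([e.sh (p + 2)] ++ ([.cap p] ++ shW p W))
        ([e.sh (p + 2)] ++ (shW (p + 2) W ++ [.cap p])) := Iso.left w3 ih
    exact s1.trans s2
  induction hW with
  | nil n => exact Iso.refl _
  | @cup n n' W i h hW ih => exact step (word_cup.2 ⟨h, Word.nil _⟩) hW ih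
  | @cap n n' W i h hW ih =>
    exact step (word_cap.2 ⟨by omega, by rw [Nat.add_sub_cancel]; exact Word.nil _⟩) hW ih
  | @cr n n' W i o h hW ih => exact step (word_cr.2 ⟨by omega, Word.nil _⟩) hW ih

/-- The swing: the first strand below a box is led around the box, over or under everything. -/
theorem iso_swing (ε : Bool) {c b : ℕ} {A : List Ev} (hA : Word (c + 1) A b) (p q : ℕ) :
    Iso (p + (c + 1) + q) (p + b + q) (shW p A)
      (RW ε p c ++ ([.cup p] ++ (shW (p + 1) A ++ (LW ε (p + 1) b ++ [.cap p])))) := by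
  obtain ⟨N, hN⟩ : ∃ N, N = p + (c + 1) + q := ⟨_, rfl⟩
  obtain ⟨M, hM⟩ : ∃ M, M = p + b + q := ⟨_, rfl⟩
  rw [← hN, ← hM]
  have w0 : Word N (shW p A) M := by
    have := hA.shift p q
    rwa [← hN, ← hM] at this
  have w2 : Word (N + 2) (shW (p + 2) A) (M + 2) := by
    have := hA.shift (p + 2) q
    have e1 : p + 2 + (c + 1) + q = N + 2 := by omega
    have e2 : p + 2 + b + q = M + 2 := by omega
    rwa [e1, e2] at this
  have w1 : Word (N + 2) (shW (p + 1) A) (M + 2) := by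
    have := hA.shift (p + 1) (q + 1)
    have e1 : p + 1 + (c + 1) + (q + 1) = N + 2 := by omega
    have e2 : p + 1 + b + (q + 1) = M + 2 := by omega
    rwa [e1, e2] at this
  have wcup1 : Word N [.cup (p + 1)] (N + 2) := word_cup.2 ⟨by omega, Word.nil _⟩
  have wcapM : Word (M + 2) [.cap p] M :=
    word_cap.2 ⟨by omega, by rw [Nat.add_sub_cancel]; exact Word.nil _⟩
  have wcapN : Word (N + 2) [.cap p] N :=
    word_cap.2 ⟨by omega, by rw [Nat.add_sub_cancel]; exact Word.nil _⟩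
  have wcr : Word (M + 2) [.cr p ε] (M + 2) := word_cr.2 ⟨by omega, Word.nil _⟩
  -- zigzag
  have s1 : Iso N M ([] ++ shW p A) ([.cup (p + 1), .cap p] ++ shW p A) :=
    Iso.right w0 (Iso.of_mv (Mv.zig p) (wcup1.append wcapN) (Word.nil _)).symm
  -- the maximum moves up
  have s2 : Iso N M ([.cup (p + 1)] ++ ([.cap p] ++ shW p A)) ([.cup (p + 1)] ++ (shW (p + 2) A ++ [.cap p])) := by
    refine Iso.left wcup1 ?_
    have := iso_cap_left hA p q
    have e1 : p + 2 + (c + 1) + q = N + 2 := by omega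
    rwa [e1, ← hM] at this
  -- a kink, and a finger move to the right
  have s3 : Iso N M (([.cup (p + 1)] ++ shW (p + 2) A) ++ [.cap p])
      (([.cup (p + 1)] ++ shW (p + 2) A) ++ [.cr p ε, .cap p]) :=
    Iso.left (wcup1.append w2) (Iso.of_mv (Mv.r1cap p ε) (wcr.append wcapM) wcapM).symm
  have s4 : Iso N M ((([.cup (p + 1)] ++ shW (p + 2) A) ++ [.cr p ε]) ++ ([] ++ [.cap p]))
      ((([.cup (p + 1)] ++ shW (p + 2) A) ++ [.cr p ε]) ++ ((RW ε (p + 1) b ++ LW ε (p + 1) b) ++ [.cap p])) :=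
    Iso.mid ((wcup1.append w2).append wcr) (iso_RL ε (by omega)).symm wcapM
  -- the strand passes over the tangle
  have s5 : Iso (N + 2) (M + 2) (RW ε p (1 + (c + 1)) ++ shW (p + 1) A) (shW (p + 2) A ++ RW ε p (1 + b)) := by
    have t := iso_pass ε (hA.shift 1 0) p q
    rw [shW_shW, shW_shW] at t
    have e1 : p + (1 + (c + 1) + 0 + 1) + q = N + 2 := by omega
    have e2 : p + (1 + b + 0 + 1) + q = M + 2 := by omega
    rw [e1, e2] at t
    exact t
  have s6 : Iso N M ([.cup (p + 1)] ++ ((shW (p + 2) A ++ RW ε p (1 + b)) ++ (LW ε (p + 1) b ++ [.cap p])))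
      ([.cup (p + 1)] ++ ((RW ε p (1 + (c + 1)) ++ shW (p + 1) A) ++ (LW ε (p + 1) b ++ [.cap p]))) :=
    Iso.mid wcup1 s5.symm ((word_LW (by omega)).append wcapM)
  -- the strand passes over the minimum
  have s7 : Iso N (N + 2) ([.cup (p + 1)] ++ RW ε p (1 + (c + 1))) (RW ε p c ++ [.cup p]) := by
    have e1 : RW ε p (1 + (c + 1)) = [.cr p ε, .cr (p + 1) ε] ++ RW ε (p + 2) c := by
      rw [show 1 + (c + 1) = 2 + c from by omega, RW_add]
      rfl
    rw [e1]
    have t1 : Iso N (N + 2) ([.cup (p + 1), .cr p ε, .cr (p + 1) ε] ++ RW ε (p + 2) c) ([.cup p] ++ RW ε (p + 2) c) :=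
      Iso.right (word_RW (by omega)) (iso_K1 ε (by omega))
    have t2 : Iso N (N + 2) ([.cup p] ++ RW ε (p + 2) c) (RW ε p c ++ [.cup p]) :=
      iso_RW_right ε (e := .cup p) (j := 0) (r := c) (word_cup.2 ⟨by omega, Word.nil _⟩)
        (Or.inr (by simp only [Ev.pos, Ev.inn]; omega))
    exact t1.trans t2
  have s8 : Iso N M (([.cup (p + 1)] ++ RW ε p (1 + (c + 1))) ++ (shW (p + 1) A ++ (LW ε (p + 1) b ++ [.cap p])))
      ((RW ε p c ++ [.cup p]) ++ (shW (p + 1) A ++ (LW ε (p + 1) b ++ [.cap p]))) :=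
    Iso.right (w1.append ((word_LW (by omega)).append wcapM)) s7
  have e3 : RW ε p (1 + b) = [.cr p ε] ++ RW ε (p + 1) b := RW_add ε p 1 b
  rw [e3] at s6
  simp only [List.append_assoc, List.nil_append, List.cons_append] at s1 s2 s3 s4 s6 s8 ⊢
  exact s1.trans (s2.trans (s3.trans (s4.trans (s6.trans s8))))

end MPdalt
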